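import Mathlib
import Pool.Agent.AEC.StmtsZ

set_option autoImplicit false

/-!
# The coding argument for branches of a tree, and a count of small sets

`S η i` is the state of the branch `η` at the level `i`.  If the state at `i` determines `η i`, if
states at limits are determined by the earlier ones, and if every state is coded by a function
`A → Bool`, then a branch is determined by the initial states of its descendants.
-/

namespace Pool.Agent.AECZ

open Cardinal

universe u

section Coding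

set_option linter.unusedSectionVars false

variable {I A X : Type u} [LinearOrder I] [WellFoundedLT I] [SuccOrder I] [NoMaxOrder I]
  [OrderBot I]

/-- the descendants of a branch -/
noncomputable def desc (S : (I → Bool) → I → X) (c : X → A → Bool) (g : I → Bool) :
    List A → (I → Bool)
  | [] => g
  | a :: s => fun i => c (S (desc S c g s) (Order.succ i)) a

theorem desc_nil (S : (I → Bool) → I → X) (c : X → A → Bool) (g : I → Bool) :
    desc S c g [] = g := rfl

theorem desc_cons (S : (I → Bool) → I → X) (c : X → A → Bool) (g : I → Bool) (a : A)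
    (s : List A) (i : I) : desc S c g (a :: s) i = c (S (desc S c g s) (Order.succ i)) a := rfl

theorem desc_state (S : (I → Bool) → I → X) (c : X → A → Bool) (hc : Function.Injective c)
    (h1 : ∀ η ν i, S η i = S ν i → η i = ν i)
    (h2 : ∀ i, Order.IsSuccLimit i → ∀ η ν, (∀ j < i, S η j = S ν j) → S η i = S ν i)
    (g g' : I → Bool) (h0 : ∀ s, S (desc S c g s) ⊥ = S (desc S c g' s) ⊥) (i : I) :
    ∀ s, S (desc S c g s) i = S (desc S c g' s) i := by
  induction i using WellFoundedLT.induction with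
  | ind i ih =>
    intro s
    rcases eq_or_ne i ⊥ with hb | hb
    · rw [hb]; exact h0 s
    · by_cases hl : Order.IsSuccLimit i
      · exact h2 i hl _ _ fun j hj => ih j hj s
      · have hp : ¬ Order.IsSuccPrelimit i := fun h => hl ⟨fun hm => hb hm.eq_bot, h⟩
        obtain ⟨j, hj⟩ : ∃ j, Order.succ j = i := by
          obtain ⟨j, hj⟩ := not_forall.1 hp
          exact ⟨j, (not_not.1 hj).succ_eq⟩
        subst hj
        apply hc
        funext a
        have h3 := h1 _ _ j (ih j (Order.lt_succ j) (a :: s))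
        rw [desc_cons, desc_cons] at h3
        exact h3

/-- **Coding lemma.** The number of branches is at most the number of families of states indexed
by the finite sequences in `A`. -/
theorem coding (S : (I → Bool) → I → X) (c : X → A → Bool) (hc : Function.Injective c)
    (h1 : ∀ η ν i, S η i = S ν i → η i = ν i)
    (h2 : ∀ i, Order.IsSuccLimit i → ∀ η ν, (∀ j < i, S η j = S ν j) → S η i = S ν i) :
    Function.Injective fun (g : I → Bool) (s : List A) => S (desc S c g s) ⊥ := by
  intro g g' hgg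
  funext i
  exact h1 g g' i (by
    have h := desc_state S c hc h1 h2 g g' (fun s => congrFun hgg s) i []
    rwa [desc_nil, desc_nil] at h)

/-- The coding lemma for cardinals: if there are at most `2 ^ χ` states then there are at most
`2 ^ χ` branches. -/
theorem coding_card (χ : Cardinal.{u}) (hχ : ℵ₀ ≤ χ) (hX : #X ≤ 2 ^ χ)
    (S : (I → Bool) → I → X)
    (h1 : ∀ η ν i, S η i = S ν i → η i = ν i)
    (h2 : ∀ i, Order.IsSuccLimit i → ∀ η ν, (∀ j < i, S η j = S ν j) → S η i = S ν i) :
    (2 : Cardinal.{u}) ^ #I ≤ 2 ^ χ := by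
  have hA : #(χ.out) = χ := Cardinal.mk_out χ
  have hcard : #X ≤ #(χ.out → Bool) := by
    rw [Cardinal.mk_arrow, hA, Cardinal.mk_bool]
    simpa using hX
  obtain ⟨c⟩ := hcard
  have hinj := coding (A := χ.out) S c c.injective h1 h2
  have h3 := Cardinal.mk_le_of_injective hinj
  have hinf : Infinite χ.out := by
    rw [Cardinal.infinite_iff, hA]; exact hχ
  rw [Cardinal.mk_arrow, Cardinal.mk_arrow, Cardinal.mk_bool, Cardinal.mk_list_eq_mk,
    hA] at h3
  simp only [Cardinal.lift_id, Cardinal.lift_id', Cardinal.lift_ofNat] at h3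
  refine h3.trans ?_
  calc #X ^ χ ≤ (2 ^ χ) ^ χ := Cardinal.power_le_power_right hX
    _ = 2 ^ χ := by rw [← Cardinal.power_mul, Cardinal.mul_eq_self hχ]

end Coding

/-- The number of subsets of cardinality `< θ` of a set with at most `2 ^ χ` elements. -/
theorem card_small_sets {T : Type u} (χ θ : Cardinal.{u}) (hχ : ℵ₀ ≤ χ) (hT : #T ≤ 2 ^ χ)
    (hθ : θ ≤ 2 ^ χ) (h : ∀ μ < θ, (2 : Cardinal.{u}) ^ μ ≤ 2 ^ χ) :
    #{Z : Set T // #Z < θ} ≤ 2 ^ χ := by
  have h2χ : ℵ₀ ≤ (2 : Cardinal.{u}) ^ χ := hχ.trans (Cardinal.cantor χ).le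
  have hpow : ∀ μ < θ, ((2 : Cardinal.{u}) ^ χ) ^ μ ≤ 2 ^ χ := by
    intro μ hμ
    rcases le_total μ χ with h1 | h1
    · calc ((2 : Cardinal.{u}) ^ χ) ^ μ ≤ (2 ^ χ) ^ χ :=
          Cardinal.power_le_power_left (by
            intro h0; rw [h0] at h2χ; exact absurd h2χ (not_le.2 Cardinal.aleph0_pos)) h1
        _ = 2 ^ χ := by rw [← Cardinal.power_mul, Cardinal.mul_eq_self hχ]
    · rw [← Cardinal.power_mul, Cardinal.mul_eq_right (hχ.trans h1) h1
        (by rintro rfl; exact absurd hχ (not_le.2 Cardinal.aleph0_pos))]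
      exact h μ hμ
  have hcover : {Z : Set T | #Z < θ} ⊆ ⋃ i : θ.ord.ToType, {Z : Set T | #Z ≤ #(Set.Iio i)} := by
    intro Z hZ
    have h1 : (#Z).ord < θ.ord := Cardinal.ord_lt_ord.2 hZ
    rw [Set.mem_iUnion]
    refine ⟨Ordinal.ToType.mk ⟨(#Z).ord, h1⟩, ?_⟩
    have h2 : #(Set.Iio (Ordinal.ToType.mk ⟨(#Z).ord, h1⟩)) = #Z := by
      have h4 : #(Set.Iio (Ordinal.ToType.mk ⟨(#Z).ord, h1⟩)) =
        (Ordinal.typein (α := θ.ord.ToType) (· < ·) (Ordinal.ToType.mk ⟨(#Z).ord, h1⟩)).card := rfl
      rw [h4]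
      change (Ordinal.typein (α := θ.ord.ToType) (· < ·)
        (Ordinal.enum (α := θ.ord.ToType) (· < ·) ⟨(#Z).ord, _⟩)).card = #Z
      rw [Ordinal.typein_enum, Cardinal.card_ord]
    exact h2.ge
  calc #{Z : Set T // #Z < θ} ≤ #(⋃ i : θ.ord.ToType, {Z : Set T | #Z ≤ #(Set.Iio i)} : Set (Set T)) :=
        Cardinal.mk_le_mk_of_subset hcover
    _ ≤ Cardinal.sum fun i : θ.ord.ToType => #{Z : Set T | #Z ≤ #(Set.Iio i)} :=
        Cardinal.mk_iUnion_le_sum_mk
    _ ≤ Cardinal.sum fun _ : θ.ord.ToType => (2 : Cardinal.{u}) ^ χ := by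
        refine Cardinal.sum_le_sum _ _ fun i => ?_
        have h3 : #(Set.Iio i) < θ := by
          simpa using Cardinal.mk_Iio_lt i
        refine (show #{Z : Set T | #Z ≤ #(Set.Iio i)} ≤ max #T ℵ₀ ^ #(Set.Iio i) from
          Cardinal.mk_bounded_set_le T _).trans ?_
        refine le_trans ?_ (hpow _ h3)
        exact Cardinal.power_le_power_right (max_le hT h2χ)
    _ = θ * 2 ^ χ := by rw [Cardinal.sum_const', Cardinal.mk_ord_toType]
    _ ≤ 2 ^ χ * 2 ^ χ := by gcongr
    _ = 2 ^ χ := Cardinal.mul_eq_self h2χ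

theorem css : Pool.Agent.AEC.CssStmt.{u} := fun _ χ θ hχ hT hθ h => card_small_sets χ θ hχ hT hθ h

theorem cod : Pool.Agent.AEC.CodStmt.{u} := by
  intro I X _ _ _ _ χ S hχ hX h1 h2
  let _ : SuccOrder I := SuccOrder.ofLinearWellFoundedLT I
  let _ : OrderBot I := WellFoundedLT.toOrderBot I
  exact coding_card χ hχ hX S h1 h2

end Pool.Agent.AECZ
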