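import Mathlib
import Pool.Agent.AEC.StmtsZ

set_option autoImplicit false

/-!
# Row TRE: the binary tree of members
-/

open FirstOrder FirstOrder.Language Cardinal Set

universe u

namespace Pool.Agent.AECZ

open Pool.Agent.AEC

section Rec

variable {F I : Type u} [LinearOrder I] [WellFoundedLT I]

/-- the recursion -/
noncomputable def tr (D0 : Set F) (st : Bool → Set F → Set F) (η : I → Bool) : I → Set F :=
  WellFounded.fix (C := fun _ => Set F) (wellFounded_lt (α := I))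
    (fun i rec => D0 ∪ ⋃ j : Set.Iio i, st (η j) (rec j.1 j.2))

theorem tr_eq (D0 : Set F) (st : Bool → Set F → Set F) (η : I → Bool) (i : I) :
    tr D0 st η i = D0 ∪ ⋃ j : Set.Iio i, st (η j) (tr D0 st η j) := by
  unfold tr
  rw [WellFounded.fix_eq]

theorem tr_local (D0 : Set F) (st : Bool → Set F → Set F) (η ν : I → Bool) (i : I)
    (h : ∀ j < i, η j = ν j) : tr D0 st η i = tr D0 st ν i := by
  induction i using WellFoundedLT.induction with
  | ind i ih =>
    rw [tr_eq, tr_eq D0 st ν]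
    congr 1
    refine Set.iUnion_congr fun j => ?_
    rw [h j.1 j.2, ih j.1 j.2 fun k hk => h k (hk.trans j.2)]

end Rec

variable {L : FirstOrder.Language.{u, u}} {κ : Cardinal.{u}} {K : Pool.Agent.AEC.AEC L κ}

theorem pts_iUnion {Ω J : Type u} (D : J → Set (Fact L Ω)) :
    pts (⋃ j, D j) = ⋃ j, pts (D j) := by
  ext x
  simp only [pts, Set.mem_ofPred_eq, Set.mem_iUnion]

theorem pts_plc {Ω : Type u} {D : Set (Fact L Ω)} (P : K.Plc D) : pts D = Set.range P.φ := by
  ext x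
  exact (Set.ext_iff.1 P.eq (Fact.el x)).symm

theorem card_pts {Ω : Type u} {D : Set (Fact L Ω)} (P : K.Plc D) : #(pts D) = #P.A.α := by
  rw [pts_plc P]
  exact Cardinal.mk_range_eq _ P.inj

theorem card_iUnion_le {J T : Type u} (f : J → Set T) (c : Cardinal.{u}) (h : ∀ j, #(f j) ≤ c) :
    #(⋃ j, f j : Set T) ≤ #J * c := by
  refine Cardinal.mk_iUnion_le_sum_mk.trans ?_
  rw [← Cardinal.sum_const']
  exact Cardinal.sum_le_sum _ _ h

section Main

variable (exr : ExrStmt.{u}) (unz : UnzStmt.{u})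
  {I Ω : Type u} [LinearOrder I] [WellFoundedLT I]
  (D0 : Set (Fact L Ω)) (P0 : K.Plc D0) (θ : Cardinal.{u}) (hM : ℵ₀ ≤ #P0.A.α)
  (hθ : #P0.A.α < θ) (hI : ∀ i : I, #(Set.Iio i) < θ)
  (st : Bool → Set (Fact L Ω) → Set (Fact L Ω))
  (hst : ∀ D, K.Ext D0 D → #(pts D) < θ → ∀ b, K.Ext D (st b D) ∧ #(pts (st b D)) = #(pts D))

include exr unz hM hθ hI hst

theorem claims (η : I → Bool) (i : I) :
    K.Ext D0 (tr D0 st η i) ∧ #(pts (tr D0 st η i)) ≤ max #P0.A.α #(Set.Iio i) ∧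
      ∀ j < i, K.Ext (st (η j) (tr D0 st η j)) (tr D0 st η i) := by
  obtain ⟨ex1, ex2, ex3, ex4⟩ := exr L κ K Ω
  induction i using WellFoundedLT.induction with
  | ind i ih =>
    have hlt : ∀ j < i, #(pts (tr D0 st η j)) < θ := fun j hj =>
      (ih j hj).2.1.trans_lt (max_lt hθ (hI j))
    have hE : ∀ j < i, K.Ext (tr D0 st η j) (st (η j) (tr D0 st η j)) ∧
        #(pts (st (η j) (tr D0 st η j))) = #(pts (tr D0 st η j)) := fun j hj =>
      hst _ (ih j hj).1 (hlt j hj) _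
    rcases isEmpty_or_nonempty (Set.Iio i) with hem | hne
    · have h0 : tr D0 st η i = D0 := by
        rw [tr_eq]
        rw [Set.iUnion_of_empty, Set.union_empty]
      rw [h0]
      refine ⟨ex3 _ ⟨P0⟩, ?_, fun j hj => ?_⟩
      · rw [card_pts P0]
        exact le_max_left _ _
      · exact hem.elim ⟨j, hj⟩
    · have hchain : ∀ j j' : Set.Iio i, j ≤ j' →
          K.Ext (st (η j) (tr D0 st η j)) (st (η j') (tr D0 st η j')) := by
        intro j j' hjj
        rcases eq_or_lt_of_le hjj with h | h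
        · subst h
          obtain ⟨_, P', _⟩ := (hE j.1 j.2).1
          exact ex3 _ ⟨P'⟩
        · exact ex2 _ _ _ ((ih j'.1 j'.2).2.2 j.1 h) (hE j'.1 j'.2).1
      have hU := unz L κ K Ω (Set.Iio i) (fun j => st (η j) (tr D0 st η j)) hchain
      have hsub : ∀ j : Set.Iio i, K.Ext D0 (st (η j) (tr D0 st η j)) := fun j =>
        ex2 _ _ _ (ih j.1 j.2).1 (hE j.1 j.2).1
      have hT : tr D0 st η i = ⋃ j : Set.Iio i, st (η j) (tr D0 st η j) := by
        rw [tr_eq]
        apply Set.union_eq_self_of_subset_left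
        obtain ⟨j⟩ := hne
        exact (ex4 _ _ (hsub j)).trans (Set.subset_iUnion (fun j : Set.Iio i =>
          st (η j) (tr D0 st η j)) j)
      refine ⟨?_, ?_, fun j hj => ?_⟩
      · rw [hT]
        obtain ⟨j⟩ := hne
        exact ex2 _ _ _ (hsub j) (hU j)
      · rw [hT, pts_iUnion]
        have h1 : ∀ j : Set.Iio i, #(pts (st (η j) (tr D0 st η j))) ≤
            max #P0.A.α #(Set.Iio i) := by
          intro j
          rw [(hE j.1 j.2).2]
          refine (ih j.1 j.2).2.1.trans (max_le_max le_rfl ?_)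
          exact Cardinal.mk_le_mk_of_subset (Set.Iio_subset_Iio (le_of_lt j.2))
        refine (card_iUnion_le _ _ h1).trans ?_
        have h2 : ℵ₀ ≤ max #P0.A.α #(Set.Iio i) := hM.trans (le_max_left _ _)
        exact Cardinal.mul_le_of_le h2 (le_max_right _ _) le_rfl
      · rw [hT]
        exact hU ⟨j, hj⟩

end Main

theorem inc_use {Ω : Type u} {D D₀ D₁ E₀ E₁ : Set (Fact L Ω)} (h : K.Inc D D₀ D₁)
    (h0 : E₀ = D₀) (h1 : E₁ = D₁) : K.Inc D E₀ E₁ := by
  subst h0 h1
  exact h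

theorem inc_symm {Ω : Type u} {D D₀ D₁ : Set (Fact L Ω)} (h : K.Inc D D₀ D₁) :
    K.Inc D D₁ D₀ := by
  intro Z P₁ P₀ w₁ w₀
  obtain ⟨x, y, h1, h2, h3⟩ := h Z P₀ P₁ w₀ w₁
  exact ⟨y, x, h1.symm, h1 ▸ h2, fun h => h3 h.symm⟩

theorem tre (exr : ExrStmt.{u}) (unz : UnzStmt.{u}) (spl : SplStmt.{u}) : TreStmt.{u} := by
  intro L κ K M θ hM hMθ hN
  obtain ⟨ex1, ex2, ex3, ex4⟩ := exr L κ K θ.ord.ToType
  have hΩ : #θ.ord.ToType = θ := Cardinal.mk_ord_toType θ
  have hθ : ℵ₀ ≤ θ := hM.trans hMθ.le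
  obtain ⟨φ₀⟩ : #M.α ≤ #θ.ord.ToType := by rw [hΩ]; exact hMθ.le
  let D0 : Set (Fact L θ.ord.ToType) := dg M.α φ₀
  let P0 : K.Plc D0 := ⟨M, φ₀, φ₀.injective, rfl⟩
  have hI : ∀ i : θ.ord.ToType, #(Set.Iio i) < θ := fun i => by
    simpa using Cardinal.mk_Iio_lt i
  have hspl : ∀ D : Set (Fact L θ.ord.ToType), K.Ext D0 D → #(pts D) < θ →
      ∃ D₁ D₂ : Set (Fact L θ.ord.ToType), K.Ext D D₁ ∧ K.Ext D D₂ ∧ #(pts D₁) = #(pts D) ∧
        #(pts D₂) = #(pts D) ∧ K.Inc D D₁ D₂ := by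
    intro D hD hc
    refine spl L κ K θ.ord.ToType D0 D P0 ?_ hD ?_ ?_
    · rw [hΩ]; exact hθ
    · rw [hΩ]; exact hc
    · intro N f hNc
      rw [hΩ] at hNc
      exact hN N f hNc
  choose! d1 d2 hd1 hd2 hc1 hc2 hinc using hspl
  let st : Bool → Set (Fact L θ.ord.ToType) → Set (Fact L θ.ord.ToType) :=
    fun b D => if b then d2 D else d1 D
  have hst : ∀ D, K.Ext D0 D → #(pts D) < θ →
      ∀ b, K.Ext D (st b D) ∧ #(pts (st b D)) = #(pts D) := by
    intro D hD hc b
    cases b with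
    | false => exact ⟨hd1 D hD hc, hc1 D hD hc⟩
    | true => exact ⟨hd2 D hD hc, hc2 D hD hc⟩
  have hcl := claims exr unz D0 P0 θ hM hMθ hI st hst
  have hlt : ∀ η i, #(pts (tr D0 st η i)) < θ := fun η i =>
    (hcl η i).2.1.trans_lt (max_lt hMθ (hI i))
  have hE : ∀ η i, K.Ext (tr D0 st η i) (st (η i) (tr D0 st η i)) := fun η i =>
    (hst _ (hcl η i).1 (hlt η i) _).1
  have hne : Nonempty θ.ord.ToType := by
    rw [← Cardinal.mk_ne_zero_iff, hΩ]
    intro h0
    rw [h0] at hθ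
    exact absurd hθ (not_le.2 Cardinal.aleph0_pos)
  have hchain : ∀ η, ∀ j j' : θ.ord.ToType, j ≤ j' →
      K.Ext (st (η j) (tr D0 st η j)) (st (η j') (tr D0 st η j')) := by
    intro η j j' hjj
    rcases eq_or_lt_of_le hjj with h | h
    · subst h
      obtain ⟨_, P', _⟩ := hE η j
      exact ex3 _ ⟨P'⟩
    · exact ex2 _ _ _ ((hcl η j').2.2 j h) (hE η j')
  have hU := fun η => unz L κ K θ.ord.ToType θ.ord.ToType
    (fun j => st (η j) (tr D0 st η j)) (hchain η)
  have hU0 : ∀ η : θ.ord.ToType → Bool, K.Ext D0 (⋃ j, st (η j) (tr D0 st η j)) := by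
    intro η
    obtain ⟨j⟩ := hne
    exact ex2 _ _ _ (hcl η j).1 (ex2 _ _ _ (hE η j) (hU η j))
  have hG : ∀ η : θ.ord.ToType → Bool, Nonempty (K.Plc (⋃ j, st (η j) (tr D0 st η j))) := by
    intro η
    obtain ⟨_, P', _⟩ := hU0 η
    exact ⟨P'⟩
  let G := fun η : θ.ord.ToType → Bool => Classical.choice (hG η)
  have he : ∀ η : θ.ord.ToType → Bool, ∃ f : K.Hom M (G η).A, ∀ x, (G η).φ (f x) = φ₀ x := fun η =>
    ex1 _ _ (hU0 η) P0 (G η)
  choose e he using he
  refine ⟨{ Ω := θ.ord.ToType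
            G := fun η => (G η).A
            e := e
            ψ := fun η => (G η).φ
            P := fun (η : θ.ord.ToType → Bool) (i : θ.ord.ToType) => pts (tr D0 st η i)
            inj := fun η => (G η).inj
            card_Ω := le_rfl
            card_P := fun (η : θ.ord.ToType → Bool) (i : θ.ord.ToType) => (hcl η i).2.1
            local' := fun η ν i h => by rw [tr_local (I := θ.ord.ToType) D0 st η ν i h]
            cont := ?_
            inc := ?_ }⟩
  · intro η i hi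
    apply Set.Subset.antisymm
    · intro x hx
      have hx' : Fact.el x ∈ tr D0 st η i := hx
      rw [tr_eq] at hx'
      obtain ⟨j₀, hj₀⟩ : ∃ j₀, j₀ < i := by
        by_contra hno
        push Not at hno
        exact hi.1 (fun b _ => hno b)
      rcases hx' with h | h
      · refine Set.mem_iUnion.2 ⟨⟨j₀, hj₀⟩, ?_⟩
        exact ex4 _ _ (hcl η j₀).1 h
      · obtain ⟨j, hj⟩ := Set.mem_iUnion.1 h
        obtain ⟨k, hjk, hki⟩ : ∃ k, j.1 < k ∧ k < i := by
          by_contra hno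
          push Not at hno
          exact hi.2 j.1 ⟨j.2, fun c hc hci => absurd hci (not_lt.2 (hno c hc))⟩
        refine Set.mem_iUnion.2 ⟨⟨k, hki⟩, ?_⟩
        exact ex4 _ _ ((hcl η k).2.2 j.1 hjk) hj
    · intro x hx
      obtain ⟨j, hj⟩ := Set.mem_iUnion.1 hx
      exact ex4 _ _ ((hcl η i).2.2 j.1 j.2) (ex4 _ _ (hE η j.1) hj)
  · intro η ν i hην hne' Z f g
    have hD : tr D0 st η i = tr D0 st ν i :=
      tr_local (I := θ.ord.ToType) D0 st η ν i hην
    obtain ⟨_, P1, _⟩ := hE η i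
    obtain ⟨_, P2, _⟩ := hE ν i
    obtain ⟨u, hu⟩ := ex1 _ _ (hU η i) P1 (G η)
    obtain ⟨v, hv⟩ := ex1 _ _ (hU ν i) P2 (G ν)
    have hI' := hinc (tr D0 st η i) (hcl η i).1 (hlt η i)
    have hI2 : K.Inc (tr D0 st η i) (st (η i) (tr D0 st η i)) (st (ν i) (tr D0 st ν i)) := by
      cases hb : η i with
      | false =>
        have hb' : ν i = true := by
          cases hc : ν i with
          | false => exact absurd (hb.trans hc.symm) hne'
          | true => rfl
        exact inc_use hI' rfl (by rw [hb', ← hD]; rfl)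
      | true =>
        have hb' : ν i = false := by
          cases hc : ν i with
          | true => exact absurd (hb.trans hc.symm) hne'
          | false => rfl
        exact inc_use (inc_symm hI') rfl (by rw [hb', ← hD]; rfl)
    obtain ⟨x, y, h1, h2, h3⟩ := hI2 Z P1 P2 (f.comp u) (g.comp v)
    refine ⟨u x, v y, ?_, ?_, h3⟩
    · rw [hu, hv, h1]
    · rw [hu]; exact h2

end Pool.Agent.AECZ
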