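import Pool.Agent.Helper64_AEC.Zcb
import Pool.Agent.Helper64_AEC.Tre
import Pool.Agent.Helper64_AEC.Cod
import Pool.Agent.Helper77_AEC.REL
import Pool.Agent.Helper41_AEC.FIN
import Pool.Agent.Helper69_AEC.DIR
import Pool.Agent.Helper48_AEC.DIS
import Pool.Agent.Helper41_AEC.DLM
import Pool.Agent.Helper51_AEC.DLU
import Pool.Agent.Helper24_AEC.PRS
import Pool.Agent.Helper51_AEC.EHS
import Pool.Agent.Helper52_AEC.ERD
import Pool.Agent.Helper18_AEC.TPS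
import Pool.Agent.Helper46_AEC.TPA
import Pool.Agent.Helper82_AEC.TPB
import Pool.Agent.Helper52_AEC.EMX
import Pool.Agent.Helper88_AEC.SPT
import Pool.Agent.Helper41_AEC.TRC
import Pool.Agent.Helper76_AEC.CCL
import Pool.Agent.Helper25_AEC.SMC
import Pool.Agent.Helper63_AEC.SML
import Pool.Agent.Helper84_AEC.LNG
import Pool.Agent.Helper41_AEC.HNF
import Pool.Agent.Helper60_AEC.DGE
import Pool.Agent.Helper77_AEC.EXR
import Pool.Agent.Helper45_AEC.UNZ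
import Pool.Agent.Helper52_AEC.PLE
import Pool.Agent.Helper20_AEC.SPL
import Pool.Agent.Helper1_AEC.ZTG
import Pool.Agent.Helper84_AEC.SZP
import Pool.Agent.Helper44_AEC.ZLA

set_option autoImplicit false

/-!
# Theorem Z: assembly of the rows
-/

open FirstOrder FirstOrder.Language Cardinal Set

universe u

namespace Pool.Agent.AECZ

open Pool.Agent.AEC

theorem fin' : FinStmt.{u} := H41.fin_ H77.rel_

theorem dlm' : DlmStmt.{u} := H41.dlm (H69.dir fin'.{u})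

theorem dlu' : DluStmt.{u} := H51.dlu (H48.dis fin'.{u})

theorem trc' : TrcStmt.{u} := H41.trc dlm'.{u} dlu'.{u}

theorem hnf' : HnfStmt.{u} := H41.hnf (H63.sml (H25.smc fin'.{u})) H84.lng.{u}

theorem tpa' : TpaStmt.{u} := H46.tpa H24.prs.{u} (H18.tps (H52.erd H51.ehs.{u}))

theorem emx' : EmxStmt.{u} := H52.emx dlm'.{u} dlu'.{u}

theorem exr' : ExrStmt.{u} := H77.exr H60.dge.{u}

theorem spl' : SplStmt.{u} := H20.spl H60.dge.{u} exr'.{u} H52.ple.{u}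

theorem tre' : TreStmt.{u} := tre exr'.{u} (H45.unz exr'.{u} dlm'.{u}) spl'.{u}

theorem ztg' : ZtgStmt.{u} := H1.ztg tre'.{u} cod.{u} css.{u}

theorem szp' : SzpStmt.{u} := H84.szp trc'.{u} dlm'.{u} H76.ccl.{u}

theorem zall (mxb : MxbStmt.{u}) (kbo : KboStmt.{u}) :
    ∀ κ : Cardinal.{u}, ∃ μ : Cardinal.{u}, ∀ (L : FirstOrder.Language.{u, u})
      (K : Pool.Agent.AEC.AEC L κ) (l : Cardinal.{u}), K.Cat l → ∀ M : K.Mod, κ ≤ #M.α →
      (μ ≤ l ∨ (l ≤ 2 ^ #M.α ∧ (2 : Cardinal.{u}) ^ #M.α < 2 ^ l)) →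
      ∃ (N : K.Mod) (_ : K.Hom M N), AEC.IsBase N ∧
        (AEC.IsMax N ∨ (2 : Cardinal.{u}) ^ #N.α = 2 ^ #M.α) ∧
        ((2 : Cardinal.{u}) ^ #M.α < 2 ^ l → #N.α < l) :=
  zfin hnf'.{u} tpa'.{u} H82.tpb.{u} emx'.{u} ztg'.{u} mxb szp'.{u} H88.spt.{u} kbo
    (H44.zla ztg'.{u} szp'.{u} mxb)

end Pool.Agent.AECZ
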