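import Mathlib
import Pool.Agent.AEC.StmtsZ

set_option autoImplicit false

/-!
# Maximal members are amalgamation bases
-/

open FirstOrder FirstOrder.Language Cardinal Set

universe u

namespace Pool.Agent.AECZ

open Pool.Agent.AEC

/-- A surjective `𝒦`-embedding has an inverse. -/
theorem exists_inv {L : FirstOrder.Language.{u, u}} {κ : Cardinal.{u}} {K : Pool.Agent.AEC.AEC L κ}
    {A B : K.Mod} (f : K.Hom A B) (hf : Function.Surjective f) :
    ∃ g : K.Hom B A, ∀ x, g (f x) = x := by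
  obtain ⟨g, hg⟩ := AEC.Hom.exists_factor (AEC.Hom.id B) f (fun b => hf b)
  exact ⟨g, fun x => f.injective (hg (f x))⟩

/-- **MXB** -/
theorem mxb : MxbStmt.{u} := by
  intro L κ K N hN B₁ B₂ f₁ f₂ _ _
  obtain ⟨g₁, h₁⟩ := exists_inv f₁ (hN B₁ f₁)
  obtain ⟨g₂, h₂⟩ := exists_inv f₂ (hN B₂ f₂)
  exact ⟨N, g₁, g₂, fun x => (h₁ x).trans (h₂ x).symm⟩

end Pool.Agent.AECZ
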