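import Pool.Agent.AEC.DefsZ

set_option autoImplicit false

/-!
# Amalgamation bases for families
-/

open FirstOrder FirstOrder.Language Cardinal Set

universe u

namespace Pool.Agent.AEC

variable {L : FirstOrder.Language.{u, u}} {κ : Cardinal.{u}}

namespace AEC

variable {K : AEC L κ}

/-- `N` is an amalgamation base for families: every family `f i : N → B i` (`i ∈ ι`) of extensions
of `N` with `2 ^ |ι| ≤ 2 ^ |N|` and `2 ^ |B i| ≤ 2 ^ |N|` for all `i` (for instance at most `|N|`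
extensions of cardinality `|N|`) can be amalgamated over `N`. -/
def IsFamBase (N : K.Mod) : Prop :=
  ∀ (ι : Type u) (B : ι → K.Mod) (f : ∀ i, K.Hom N (B i)),
    (2 : Cardinal.{u}) ^ #ι ≤ 2 ^ #N.α → (∀ i, (2 : Cardinal.{u}) ^ #(B i).α ≤ 2 ^ #N.α) →
    ∃ (Z : K.Mod) (w : ∀ i, K.Hom (B i) Z), ∀ i j x, w i (f i x) = w j (f j x)

/-- Any two extensions of `N` of cardinality `< θ` can be amalgamated over `N`. -/
def PBase (N : K.Mod) (θ : Cardinal.{u}) : Prop :=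
  ∀ (B₁ B₂ : K.Mod) (f₁ : K.Hom N B₁) (f₂ : K.Hom N B₂), #B₁.α < θ → #B₂.α < θ →
    ∃ (Z : K.Mod) (w₁ : K.Hom B₁ Z) (w₂ : K.Hom B₂ Z), ∀ x, w₁ (f₁ x) = w₂ (f₂ x)

/-- A full binary tree of members of cardinality `< θ` over `M`, of height `I`: `G η` is the union
of the branch `η`, placed in `Ω` by `ψ η`; `P η i ⊆ Ω` is the set of elements of the node
`η ↾ i`. -/
structure WTree (M : K.Mod) (θ : Cardinal.{u}) (I : Type u) [LinearOrder I] where
  Ω : Type u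
  G : (I → Bool) → K.Mod
  e : ∀ η, K.Hom M (G η)
  ψ : ∀ η, (G η).α → Ω
  P : (I → Bool) → I → Set Ω
  inj : ∀ η, Function.Injective (ψ η)
  card_Ω : #Ω ≤ #I
  card_P : ∀ η i, #(P η i) < θ
  local' : ∀ η ν i, (∀ j < i, η j = ν j) → P η i = P ν i
  cont : ∀ η i, Order.IsSuccLimit i → P η i = ⋃ j : Set.Iio i, P η j
  inc : ∀ η ν i, (∀ j < i, η j = ν j) → η i ≠ ν i →
    ∀ (Z : K.Mod) (f : K.Hom (G η) Z) (g : K.Hom (G ν) Z),
      ∃ x y, ψ η x = ψ ν y ∧ ψ η x ∈ P η i ∧ f x ≠ g y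

end AEC

end Pool.Agent.AEC
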