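import Mathlib
import Pool.Agent.Helper64_AEC.WDefs
import Pool.Agent.AEC.StmtsB
import Pool.Agent.Helper64_AEC.Mxb

set_option autoImplicit false

/-!
# Families from pairs
-/

open FirstOrder FirstOrder.Language Cardinal Set

universe u

namespace Pool.Agent.AECZ

open Pool.Agent.AEC

/-- The least `θ` with `2 ^ χ < 2 ^ θ` is regular. -/
theorem reg {Ω J : Type u} {χ θ : Cardinal.{u}} (hχ : ℵ₀ ≤ χ) (hlt : (2 : Cardinal.{u}) ^ χ < 2 ^ θ)
    (hθ : ∀ μ < θ, (2 : Cardinal.{u}) ^ μ ≤ 2 ^ χ) (f : J → Set Ω) (hJ : #J < θ)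
    (hf : ∀ j, #(f j) < θ) : #(⋃ j, f j : Set Ω) < θ := by
  by_contra hcon
  have h1 : (2 : Cardinal.{u}) ^ θ ≤ 2 ^ #(⋃ j, f j : Set Ω) :=
    Cardinal.power_le_power_left two_ne_zero (not_lt.1 hcon)
  have h2 : #(Set (⋃ j, f j : Set Ω)) ≤ #(∀ j, Set (f j)) := by
    refine ⟨⟨fun A j => {x | ⟨x.1, Set.mem_iUnion.2 ⟨j, x.2⟩⟩ ∈ A}, ?_⟩⟩
    intro A B hAB
    ext ⟨x, hx⟩
    obtain ⟨j, hj⟩ := Set.mem_iUnion.1 hx
    have h := congrFun hAB j
    have h' := Set.ext_iff.1 h ⟨x, hj⟩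
    exact h'
  have h3 : #(∀ j, Set (f j)) ≤ (2 ^ χ) ^ #J := by
    rw [Cardinal.mk_pi, ← Cardinal.prod_const']
    refine Cardinal.prod_le_prod _ _ fun j => ?_
    rw [Cardinal.mk_set]
    exact hθ _ (hf j)
  have hχθ : χ < θ := by
    by_contra h
    exact absurd (Cardinal.power_le_power_left two_ne_zero (not_lt.1 h)) (not_le.2 hlt)
  have h4 : ((2 : Cardinal.{u}) ^ χ) ^ #J ≤ 2 ^ χ := by
    rw [← Cardinal.power_mul]
    rcases le_total χ #J with h | h
    · have h5 : χ * #J ≤ #J := Cardinal.mul_le_of_le (hχ.trans h) h le_rfl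
      exact (Cardinal.power_le_power_left two_ne_zero h5).trans (hθ _ hJ)
    · have h5 : χ * #J ≤ χ := Cardinal.mul_le_of_le hχ le_rfl h
      exact Cardinal.power_le_power_left two_ne_zero h5
  rw [Cardinal.mk_set] at h2
  exact absurd (h1.trans (h2.trans (h3.trans h4))) (not_le.2 hlt)

variable {L : FirstOrder.Language.{u, u}} {κ : Cardinal.{u}} {K : Pool.Agent.AEC.AEC L κ}

/-- Families from pairs. -/
theorem fam (trc : TrcStmt.{u}) (N : K.Mod) (θ : Cardinal.{u}) (hκ : κ ≤ #N.α)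
    (hlt : (2 : Cardinal.{u}) ^ #N.α < 2 ^ θ) (hθ : ∀ μ < θ, (2 : Cardinal.{u}) ^ μ ≤ 2 ^ #N.α)
    (hb : AEC.PBase N θ) (ι : Type u) (B : ι → K.Mod) (f : ∀ i, K.Hom N (B i)) (hι : #ι < θ)
    (hB : ∀ i, #(B i).α < θ) :
    ∃ (Z : K.Mod) (w : ∀ i, K.Hom (B i) Z), ∀ i j x, w i (f i x) = w j (f j x) := by
  classical
  have hN : ℵ₀ ≤ #N.α := K.aleph0_le.trans hκ
  have hNθ : #N.α < θ := by
    by_contra h
    exact absurd (Cardinal.power_le_power_left two_ne_zero (not_lt.1 h)) (not_le.2 hlt)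
  have hθinf : ℵ₀ ≤ θ := hN.trans hNθ.le
  -- the members of the family which embed in `A` over `N`
  let C : ∀ (A : K.Mod), K.Hom N A → Set ι := fun A e =>
    {i | ∃ w : K.Hom (B i) A, ∀ x, w (f i x) = e x}
  let R : ∀ A A' : K.Mod, K.Hom N A → K.Hom A A' → Prop := fun A A' e g =>
    C A e = Set.univ ∨ ∃ i, i ∉ C A e ∧ i ∈ C A' (g.comp e)
  let c : Cardinal.{u} := max #ι ℵ₀
  have hc : c < θ := max_lt hι (hN.trans_lt hNθ)
  let J : Type u := (Order.succ c).ord.ToType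
  have hJ : #J = Order.succ c := Cardinal.mk_ord_toType _
  have hsc : ℵ₀ ≤ Order.succ c := (le_max_right _ _).trans (Order.le_succ c)
  have hnm : NoMaxOrder J := Cardinal.noMaxOrder hsc
  have hne : Nonempty J := by
    rw [← Cardinal.mk_ne_zero_iff, hJ]
    intro h
    rw [h] at hsc
    exact absurd hsc (not_le.2 Cardinal.aleph0_pos)
  have hIio0 : ∀ j : (Order.succ c).ord.ToType, #(Set.Iio j) < Order.succ c := fun j => by
    simpa using Cardinal.mk_Iio_lt j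
  have hIio : ∀ j : J, #(Set.Iio j) ≤ c := fun j => Order.lt_succ_iff.1 (hIio0 j)
  have hcl : K.ChainClosed (fun A => #A.α < θ) c := by
    intro J' _ _ _ _ hJ' F m B' s _ hs hF
    have hU : (⋃ a, Set.range (s a) : Set B'.α) = Set.univ := by
      ext y
      simp only [Set.mem_iUnion, Set.mem_range, Set.mem_univ, iff_true]
      exact hs y
    have h1 := reg hN hlt hθ (fun a => Set.range (s a)) (hJ'.trans_lt hc) (fun a => by
      rw [Cardinal.mk_range_eq _ (s a).injective]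
      exact hF a)
    rw [hU, Cardinal.mk_univ] at h1
    exact h1
  have hstep : ∀ (A : K.Mod) (e : K.Hom N A), #A.α < θ →
      ∃ (A' : K.Mod) (g : K.Hom A A'), #A'.α < θ ∧ R A A' e g := by
    intro A e hA
    by_cases hC : C A e = Set.univ
    · exact ⟨A, AEC.Hom.id A, hA, Or.inl hC⟩
    · obtain ⟨i, hi⟩ := (Set.ne_univ_iff_exists_notMem _).1 hC
      obtain ⟨Z, w₁, w₂, hw⟩ := hb A (B i) e (f i) hA (hB i)
      obtain ⟨S, hS, hSe, hSc⟩ := K.ls Z.prop (Set.range w₁ ∪ Set.range w₂)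
      have hS1 : ∀ a, ∃ b, AEC.subHom Z S hSe b = w₁ a := fun a =>
        ⟨⟨w₁ a, hS (Or.inl ⟨a, rfl⟩)⟩, rfl⟩
      have hS2 : ∀ a, ∃ b, AEC.subHom Z S hSe b = w₂ a := fun a =>
        ⟨⟨w₂ a, hS (Or.inr ⟨a, rfl⟩)⟩, rfl⟩
      obtain ⟨v₁, hv₁⟩ := AEC.Hom.exists_factor w₁ (AEC.subHom Z S hSe) hS1
      obtain ⟨v₂, hv₂⟩ := AEC.Hom.exists_factor w₂ (AEC.subHom Z S hSe) hS2
      refine ⟨AEC.sub Z S hSe, v₁, ?_, Or.inr ⟨i, hi, v₂, fun x => ?_⟩⟩
      · refine lt_of_le_of_lt hSc ?_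
        refine Cardinal.add_lt_of_lt hθinf ?_ (hκ.trans_lt hNθ)
        refine lt_of_le_of_lt (Cardinal.mk_union_le _ _) ?_
        rw [Cardinal.mk_range_eq _ w₁.injective, Cardinal.mk_range_eq _ w₂.injective]
        exact Cardinal.add_lt_of_lt hθinf hA (hB i)
      · apply (AEC.subHom Z S hSe).injective
        rw [hv₂, AEC.Hom.comp_apply, hv₁]
        exact (hw x).symm
  obtain ⟨F, m, b, hm1, hm2, hm3, hQ, hR⟩ := trc L κ K N (fun A => #A.α < θ) R J c hIio hcl hNθ hstep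
  -- some `F j` is good
  have hmono : ∀ i j : J, i ≤ j → C (F i) (b i) ⊆ C (F j) (b j) := by
    intro i j hij k hk
    obtain ⟨w, hw⟩ := hk
    exact ⟨(m i j hij).comp w, fun x => by
      rw [AEC.Hom.comp_apply, hw, hm3]⟩
  have hgood : ∃ j, C (F j) (b j) = Set.univ := by
    by_contra hno
    push Not at hno
    have hsucc : ∀ i : J, ∃ j, i ⋖ j ∧ ∃ k, k ∉ C (F i) (b i) ∧ k ∈ C (F j) (b j) := by
      intro i
      let _ := SuccOrder.ofLinearWellFoundedLT J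
      refine ⟨Order.succ i, Order.covBy_succ i, ?_⟩
      rcases hR i (Order.succ i) (Order.covBy_succ i) with h | ⟨k, hk1, hk2⟩
      · exact absurd h (hno i)
      · refine ⟨k, hk1, ?_⟩
        obtain ⟨w, hw⟩ := hk2
        exact ⟨w, fun x => by rw [hw, AEC.Hom.comp_apply, hm3]⟩
    choose s hs k hk1 hk2 using hsucc
    have hinj : Function.Injective k := by
      intro i j hij
      by_contra hne'
      rcases lt_or_gt_of_ne hne' with h | h
      · have h1 : s i ≤ j := by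
          by_contra h2
          exact (hs i).2 h (not_le.1 h2)
        exact hk1 j (hij ▸ hmono _ _ h1 (hk2 i))
      · have h1 : s j ≤ i := by
          by_contra h2
          exact (hs j).2 h (not_le.1 h2)
        exact hk1 i (hij ▸ hmono _ _ h1 (hk2 j))
    have h1 : Order.succ c ≤ #ι := by
      rw [← hJ]
      exact Cardinal.mk_le_of_injective hinj
    exact absurd (h1.trans (le_max_left _ _)) (not_le.2 (Order.lt_succ c))
  obtain ⟨j, hj⟩ := hgood
  have hw : ∀ i, ∃ w : K.Hom (B i) (F j), ∀ x, w (f i x) = b j x := by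
    intro i
    have hi : i ∈ C (F j) (b j) := by rw [hj]; trivial
    exact hi
  choose w hw using hw
  exact ⟨F j, w, fun i i' x => (hw i x).trans (hw i' x).symm⟩

/-- Maximal members are bases for families. -/
theorem famBase_of_isMax {N : K.Mod} (hN : AEC.IsMax N) : AEC.IsFamBase N := by
  intro ι B f _ _
  have h : ∀ i, ∃ g : K.Hom (B i) N, ∀ x, g (f i x) = x := fun i => exists_inv (f i) (hN _ _)
  choose g hg using h
  exact ⟨N, g, fun i j x => (hg i x).trans (hg j x).symm⟩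

theorem famBase_of_pBase (trc : TrcStmt.{u}) (N : K.Mod) (θ : Cardinal.{u}) (hκ : κ ≤ #N.α)
    (hlt : (2 : Cardinal.{u}) ^ #N.α < 2 ^ θ) (hθ : ∀ μ < θ, (2 : Cardinal.{u}) ^ μ ≤ 2 ^ #N.α)
    (hb : AEC.PBase N θ) : AEC.IsFamBase N := by
  intro ι B f hι hB
  have h : ∀ μ : Cardinal.{u}, (2 : Cardinal.{u}) ^ μ ≤ 2 ^ #N.α → μ < θ := by
    intro μ hμ
    by_contra h
    exact absurd ((Cardinal.power_le_power_left two_ne_zero (not_lt.1 h)).trans hμ)
      (not_le.2 hlt)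
  exact fam trc N θ hκ hlt hθ hb ι B f (h _ hι) (fun i => h _ (hB i))

end Pool.Agent.AECZ
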