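import Mathlib
import Pool.Agent.Helper64_AEC.Tre
import Pool.Agent.Helper64_AEC.W1
import Pool.Agent.Helper20_AEC.SPL

set_option autoImplicit false

/-!
# The binary tree of members of cardinality `< θ`
-/

open FirstOrder FirstOrder.Language Cardinal Set

universe u

namespace Pool.Agent.AECZ

open Pool.Agent.AEC

/-- Splitting of a diagram. -/
theorem wspl (hDGE : DgeStmt.{u}) (hEXR : ExrStmt.{u}) (hPLE : PleStmt.{u})
    (L : FirstOrder.Language.{u, u}) (κ : Cardinal.{u}) (K : Pool.Agent.AEC.AEC L κ)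
    (Ω : Type u) (D0 D : Set (Fact L Ω)) (P0 : K.Plc D0) (hΩ : ℵ₀ ≤ #Ω) (hE : K.Ext D0 D)
    (hlt : #(pts D) < #Ω)
    (hnb : ∀ (N : K.Mod) (_ : K.Hom P0.A N), #N.α < #Ω → ¬ AEC.PBase N #Ω) :
    ∃ D₁ D₂ : Set (Fact L Ω), K.Ext D D₁ ∧ K.Ext D D₂ ∧ #(pts D₁) < #Ω ∧
      #(pts D₂) < #Ω ∧ K.Inc D D₁ D₂ := by
  obtain ⟨h1, -, -, -⟩ := hEXR L κ K Ω
  obtain ⟨P⟩ : Nonempty (K.Plc D) := by
    obtain ⟨_, P, _, _⟩ := hE
    exact ⟨P⟩
  obtain ⟨i, hi⟩ := h1 D0 D hE P0 P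
  have hPA : #P.A.α < #Ω := by
    rw [← H20.mk_pts P]
    exact hlt
  have hb := hnb P.A i hPA
  unfold AEC.PBase at hb
  push Not at hb
  obtain ⟨B₁, B₂, f₁, f₂, c₁, c₂, ham⟩ := hb
  have hcompl : #((range P.φ)ᶜ : Set Ω) = #Ω := by
    have hinf : Infinite Ω := Cardinal.infinite_iff.2 hΩ
    apply Cardinal.mk_compl_of_infinite
    rw [Cardinal.mk_range_eq _ P.inj]
    exact hPA
  obtain ⟨ψ₁, i₁, e₁⟩ := hPLE P.A.α B₁.α Ω f₁ P.φ f₁.injective P.inj
    (by rw [hcompl]; exact c₁.le)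
  obtain ⟨ψ₂, i₂, e₂⟩ := hPLE P.A.α B₂.α Ω f₂ P.φ f₂.injective P.inj
    (by rw [hcompl]; exact c₂.le)
  let Q₁ : K.Plc (dg (L := L) B₁.α ψ₁) := ⟨B₁, ψ₁, i₁, rfl⟩
  let Q₂ : K.Plc (dg (L := L) B₂.α ψ₂) := ⟨B₂, ψ₂, i₂, rfl⟩
  refine ⟨dg (L := L) B₁.α ψ₁, dg (L := L) B₂.α ψ₂, ⟨P, Q₁, f₁, e₁⟩, ⟨P, Q₂, f₂, e₂⟩, ?_, ?_, ?_⟩
  · rw [H20.mk_pts Q₁]
    exact c₁
  · rw [H20.mk_pts Q₂]
    exact c₂
  · intro Z P₁ P₂ w₁ w₂
    by_contra hcon
    push Not at hcon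
    obtain ⟨g₁, hg₁⟩ := hDGE L Ω B₁.α P₁.A.α ψ₁ P₁.φ i₁ P₁.inj P₁.eq.symm
    obtain ⟨g₂, hg₂⟩ := hDGE L Ω B₂.α P₂.A.α ψ₂ P₂.φ i₂ P₂.inj P₂.eq.symm
    obtain ⟨x, hx⟩ := ham Z (w₁.comp (AEC.Hom.ofEquiv g₁)) (w₂.comp (AEC.Hom.ofEquiv g₂))
    apply hx
    have hx1 : P₁.φ (g₁ (f₁ x)) = P.φ x := by rw [hg₁, e₁]
    have hx2 : P₂.φ (g₂ (f₂ x)) = P.φ x := by rw [hg₂, e₂]
    have hmem : P₁.φ (g₁ (f₁ x)) ∈ pts D := by
      rw [hx1, H20.pts_plc P]
      exact mem_range_self x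
    exact hcon (g₁ (f₁ x)) (g₂ (f₂ x)) (hx1.trans hx2.symm) hmem

variable {L : FirstOrder.Language.{u, u}} {κ : Cardinal.{u}} {K : Pool.Agent.AEC.AEC L κ}

section Main

variable (exr : ExrStmt.{u}) (unz : UnzStmt.{u})
  {I Ω : Type u} [LinearOrder I] [WellFoundedLT I]
  (D0 : Set (Fact L Ω)) (P0 : K.Plc D0) (θ : Cardinal.{u})
  (hθ : #P0.A.α < θ) (hI : ∀ i : I, #(Set.Iio i) < θ)
  (hreg : ∀ (J : Type u) (f : J → Set Ω), #J < θ → (∀ j, #(f j) < θ) → #(⋃ j, f j : Set Ω) < θ)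
  (st : Bool → Set (Fact L Ω) → Set (Fact L Ω))
  (hst : ∀ D, K.Ext D0 D → #(pts D) < θ → ∀ b, K.Ext D (st b D) ∧ #(pts (st b D)) < θ)

include exr unz hθ hI hreg hst

theorem wclaims (η : I → Bool) (i : I) :
    K.Ext D0 (tr D0 st η i) ∧ #(pts (tr D0 st η i)) < θ ∧
      ∀ j < i, K.Ext (st (η j) (tr D0 st η j)) (tr D0 st η i) := by
  obtain ⟨ex1, ex2, ex3, ex4⟩ := exr L κ K Ω
  induction i using WellFoundedLT.induction with
  | ind i ih =>
    have hlt : ∀ j < i, #(pts (tr D0 st η j)) < θ := fun j hj => (ih j hj).2.1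
    have hE : ∀ j < i, K.Ext (tr D0 st η j) (st (η j) (tr D0 st η j)) ∧
        #(pts (st (η j) (tr D0 st η j))) < θ := fun j hj =>
      hst _ (ih j hj).1 (hlt j hj) _
    rcases isEmpty_or_nonempty (Set.Iio i) with hem | hne
    · have h0 : tr D0 st η i = D0 := by
        rw [tr_eq]
        rw [Set.iUnion_of_empty, Set.union_empty]
      rw [h0]
      refine ⟨ex3 _ ⟨P0⟩, ?_, fun j hj => ?_⟩
      · rw [card_pts P0]
        exact hθ
      · exact hem.elim ⟨j, hj⟩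
    · have hchain : ∀ j j' : Set.Iio i, j ≤ j' →
          K.Ext (st (η j) (tr D0 st η j)) (st (η j') (tr D0 st η j')) := by
        intro j j' hjj
        rcases eq_or_lt_of_le hjj with h | h
        · subst h
          obtain ⟨_, P', _⟩ := (hE j.1 j.2).1
          exact ex3 _ ⟨P'⟩
        · exact ex2 _ _ _ ((ih j'.1 j'.2).2.2 j.1 h) (hE j'.1 j'.2).1
      have hU := unz L κ K Ω (Set.Iio i) (fun j => st (η j) (tr D0 st η j)) hchain
      have hsub : ∀ j : Set.Iio i, K.Ext D0 (st (η j) (tr D0 st η j)) := fun j =>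
        ex2 _ _ _ (ih j.1 j.2).1 (hE j.1 j.2).1
      have hT : tr D0 st η i = ⋃ j : Set.Iio i, st (η j) (tr D0 st η j) := by
        rw [tr_eq]
        apply Set.union_eq_self_of_subset_left
        obtain ⟨j⟩ := hne
        exact (ex4 _ _ (hsub j)).trans (Set.subset_iUnion (fun j : Set.Iio i =>
          st (η j) (tr D0 st η j)) j)
      refine ⟨?_, ?_, fun j hj => ?_⟩
      · rw [hT]
        obtain ⟨j⟩ := hne
        exact ex2 _ _ _ (hsub j) (hU j)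
      · rw [hT, pts_iUnion]
        exact hreg _ _ (hI i) fun j => (hE j.1 j.2).2
      · rw [hT]
        exact hU ⟨j, hj⟩

end Main

theorem wtre (hDGE : DgeStmt.{u}) (exr : ExrStmt.{u}) (hPLE : PleStmt.{u}) (unz : UnzStmt.{u})
    (M : K.Mod) (θ : Cardinal.{u}) (hM : ℵ₀ ≤ #M.α)
    (hlt2 : (2 : Cardinal.{u}) ^ #M.α < 2 ^ θ)
    (hθ2 : ∀ μ < θ, (2 : Cardinal.{u}) ^ μ ≤ 2 ^ #M.α)
    (hN : ∀ (N : K.Mod) (_ : K.Hom M N), #N.α < θ → ¬ AEC.PBase N θ) :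
    Nonempty (K.WTree M θ θ.ord.ToType) := by
  have hMθ : #M.α < θ := by
    by_contra h
    exact absurd (Cardinal.power_le_power_left two_ne_zero (not_lt.1 h)) (not_le.2 hlt2)
  obtain ⟨ex1, ex2, ex3, ex4⟩ := exr L κ K θ.ord.ToType
  have hΩ : #θ.ord.ToType = θ := Cardinal.mk_ord_toType θ
  have hθ : ℵ₀ ≤ θ := hM.trans hMθ.le
  obtain ⟨φ₀⟩ : #M.α ≤ #θ.ord.ToType := by rw [hΩ]; exact hMθ.le
  let D0 : Set (Fact L θ.ord.ToType) := dg M.α φ₀
  let P0 : K.Plc D0 := ⟨M, φ₀, φ₀.injective, rfl⟩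
  have hI : ∀ i : θ.ord.ToType, #(Set.Iio i) < θ := fun i => by
    simpa using Cardinal.mk_Iio_lt i
  have hspl : ∀ D : Set (Fact L θ.ord.ToType), K.Ext D0 D → #(pts D) < θ →
      ∃ D₁ D₂ : Set (Fact L θ.ord.ToType), K.Ext D D₁ ∧ K.Ext D D₂ ∧ #(pts D₁) < θ ∧
        #(pts D₂) < θ ∧ K.Inc D D₁ D₂ := by
    intro D hD hc
    have h := wspl hDGE exr hPLE L κ K θ.ord.ToType D0 D P0 (by rw [hΩ]; exact hθ) hD
      (by rw [hΩ]; exact hc) (by
        intro N f hNc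
        rw [hΩ] at hNc ⊢
        exact hN N f hNc)
    rw [hΩ] at h
    exact h
  have hreg : ∀ (J : Type u) (f : J → Set θ.ord.ToType), #J < θ → (∀ j, #(f j) < θ) →
      #(⋃ j, f j : Set θ.ord.ToType) < θ := fun J f hJ hf => reg hM hlt2 hθ2 f hJ hf
  choose! d1 d2 hd1 hd2 hc1 hc2 hinc using hspl
  let st : Bool → Set (Fact L θ.ord.ToType) → Set (Fact L θ.ord.ToType) :=
    fun b D => if b then d2 D else d1 D
  have hst : ∀ D, K.Ext D0 D → #(pts D) < θ →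
      ∀ b, K.Ext D (st b D) ∧ #(pts (st b D)) < θ := by
    intro D hD hc b
    cases b with
    | false => exact ⟨hd1 D hD hc, hc1 D hD hc⟩
    | true => exact ⟨hd2 D hD hc, hc2 D hD hc⟩
  have hcl := wclaims exr unz D0 P0 θ hMθ hI hreg st hst
  have hlt : ∀ η i, #(pts (tr D0 st η i)) < θ := fun η i => (hcl η i).2.1
  have hE : ∀ η i, K.Ext (tr D0 st η i) (st (η i) (tr D0 st η i)) := fun η i =>
    (hst _ (hcl η i).1 (hlt η i) _).1
  have hne : Nonempty θ.ord.ToType := by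
    rw [← Cardinal.mk_ne_zero_iff, hΩ]
    intro h0
    rw [h0] at hθ
    exact absurd hθ (not_le.2 Cardinal.aleph0_pos)
  have hchain : ∀ η, ∀ j j' : θ.ord.ToType, j ≤ j' →
      K.Ext (st (η j) (tr D0 st η j)) (st (η j') (tr D0 st η j')) := by
    intro η j j' hjj
    rcases eq_or_lt_of_le hjj with h | h
    · subst h
      obtain ⟨_, P', _⟩ := hE η j
      exact ex3 _ ⟨P'⟩
    · exact ex2 _ _ _ ((hcl η j').2.2 j h) (hE η j')
  have hU := fun η => unz L κ K θ.ord.ToType θ.ord.ToType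
    (fun j => st (η j) (tr D0 st η j)) (hchain η)
  have hU0 : ∀ η : θ.ord.ToType → Bool, K.Ext D0 (⋃ j, st (η j) (tr D0 st η j)) := by
    intro η
    obtain ⟨j⟩ := hne
    exact ex2 _ _ _ (hcl η j).1 (ex2 _ _ _ (hE η j) (hU η j))
  have hG : ∀ η : θ.ord.ToType → Bool, Nonempty (K.Plc (⋃ j, st (η j) (tr D0 st η j))) := by
    intro η
    obtain ⟨_, P', _⟩ := hU0 η
    exact ⟨P'⟩
  let G := fun η : θ.ord.ToType → Bool => Classical.choice (hG η)
  have he : ∀ η : θ.ord.ToType → Bool, ∃ f : K.Hom M (G η).A, ∀ x, (G η).φ (f x) = φ₀ x := fun η =>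
    ex1 _ _ (hU0 η) P0 (G η)
  choose e he using he
  refine ⟨{ Ω := θ.ord.ToType
            G := fun η => (G η).A
            e := e
            ψ := fun η => (G η).φ
            P := fun (η : θ.ord.ToType → Bool) (i : θ.ord.ToType) => pts (tr D0 st η i)
            inj := fun η => (G η).inj
            card_Ω := le_rfl
            card_P := fun (η : θ.ord.ToType → Bool) (i : θ.ord.ToType) => (hcl η i).2.1
            local' := fun η ν i h => by rw [tr_local (I := θ.ord.ToType) D0 st η ν i h]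
            cont := ?_
            inc := ?_ }⟩
  · intro η i hi
    apply Set.Subset.antisymm
    · intro x hx
      have hx' : Fact.el x ∈ tr D0 st η i := hx
      rw [tr_eq] at hx'
      obtain ⟨j₀, hj₀⟩ : ∃ j₀, j₀ < i := by
        by_contra hno
        push Not at hno
        exact hi.1 (fun b _ => hno b)
      rcases hx' with h | h
      · refine Set.mem_iUnion.2 ⟨⟨j₀, hj₀⟩, ?_⟩
        exact ex4 _ _ (hcl η j₀).1 h
      · obtain ⟨j, hj⟩ := Set.mem_iUnion.1 h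
        obtain ⟨k, hjk, hki⟩ : ∃ k, j.1 < k ∧ k < i := by
          by_contra hno
          push Not at hno
          exact hi.2 j.1 ⟨j.2, fun c hc hci => absurd hci (not_lt.2 (hno c hc))⟩
        refine Set.mem_iUnion.2 ⟨⟨k, hki⟩, ?_⟩
        exact ex4 _ _ ((hcl η k).2.2 j.1 hjk) hj
    · intro x hx
      obtain ⟨j, hj⟩ := Set.mem_iUnion.1 hx
      exact ex4 _ _ ((hcl η i).2.2 j.1 j.2) (ex4 _ _ (hE η j.1) hj)
  · intro η ν i hην hne' Z f g
    have hD : tr D0 st η i = tr D0 st ν i :=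
      tr_local (I := θ.ord.ToType) D0 st η ν i hην
    obtain ⟨_, P1, _⟩ := hE η i
    obtain ⟨_, P2, _⟩ := hE ν i
    obtain ⟨u, hu⟩ := ex1 _ _ (hU η i) P1 (G η)
    obtain ⟨v, hv⟩ := ex1 _ _ (hU ν i) P2 (G ν)
    have hI' := hinc (tr D0 st η i) (hcl η i).1 (hlt η i)
    have hI2 : K.Inc (tr D0 st η i) (st (η i) (tr D0 st η i)) (st (ν i) (tr D0 st ν i)) := by
      cases hb : η i with
      | false =>
        have hb' : ν i = true := by
          cases hc : ν i with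
          | false => exact absurd (hb.trans hc.symm) hne'
          | true => rfl
        exact inc_use hI' rfl (by rw [hb', ← hD]; rfl)
      | true =>
        have hb' : ν i = false := by
          cases hc : ν i with
          | true => exact absurd (hb.trans hc.symm) hne'
          | false => rfl
        exact inc_use (inc_symm hI') rfl (by rw [hb', ← hD]; rfl)
    obtain ⟨x, y, h1, h2, h3⟩ := hI2 Z P1 P2 (f.comp u) (g.comp v)
    refine ⟨u x, v y, ?_, ?_, h3⟩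
    · rw [hu, hv, h1]
    · rw [hu]; exact h2

end Pool.Agent.AECZ
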