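import Mathlib
import Pool.Agent.Helper64_AEC.W2
import Pool.Agent.Helper1_AEC.ZTG

set_option autoImplicit false

/-!
# Theorem Z for families
-/

open FirstOrder FirstOrder.Language Cardinal Set

universe u

namespace Pool.Agent.AECZ

open Pool.Agent.AEC

/-- A small target gives bases. -/
theorem wztg (hDGE : DgeStmt.{u}) (exr : ExrStmt.{u}) (hPLE : PleStmt.{u}) (unz : UnzStmt.{u})
    (cod : CodStmt.{u}) (css : CssStmt.{u}) {L : FirstOrder.Language.{u, u}} {κ : Cardinal.{u}}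
    {K : Pool.Agent.AEC.AEC L κ} (M T : K.Mod) (θ : Cardinal.{u}) (hM : ℵ₀ ≤ #M.α)
    (hlt : (2 : Cardinal.{u}) ^ #M.α < 2 ^ θ)
    (hθ : ∀ μ < θ, (2 : Cardinal.{u}) ^ μ ≤ 2 ^ #M.α) (hT : #T.α ≤ 2 ^ #M.α)
    (hN : ∀ (N : K.Mod) (_ : K.Hom M N), #N.α ≤ θ → Nonempty (K.Hom N T)) :
    ∃ (N : K.Mod) (_ : K.Hom M N), #N.α < θ ∧ AEC.PBase N θ := by
  by_contra hcon
  have hnb : ∀ (N : K.Mod) (_ : K.Hom M N), #N.α < θ → ¬ AEC.PBase N θ := by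
    intro N f hNθ hb
    exact hcon ⟨N, f, hNθ, hb⟩
  have hMθ : #M.α < θ := by
    by_contra h
    exact absurd (Cardinal.power_le_power_left two_ne_zero (not_lt.1 h)) (not_le.2 hlt)
  have hθχ : θ ≤ 2 ^ #M.α := by
    by_contra h
    exact absurd (hθ _ (not_le.1 h)) (not_le.2 (Cardinal.cantor _))
  have hθ0 : ℵ₀ ≤ θ := hM.trans hMθ.le
  have hχ0 : ℵ₀ ≤ (2 : Cardinal.{u}) ^ #M.α := hθ0.trans hθχ
  obtain ⟨t⟩ := wtre hDGE exr hPLE unz M θ hM hlt hθ hnb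
  have hI : #(θ.ord.ToType) = θ := Cardinal.mk_ord_toType θ
  have hnm : NoMaxOrder θ.ord.ToType := Cardinal.noMaxOrder hθ0
  have hne : Nonempty θ.ord.ToType := by
    rw [← Cardinal.mk_ne_zero_iff, hI]
    intro h
    rw [h] at hθ0
    exact absurd hθ0 (not_le.2 Cardinal.aleph0_pos)
  have hΩ : #t.Ω ≤ θ := t.card_Ω.trans hI.le
  have hG : ∀ η, Nonempty (K.Hom (t.G η) T) := fun η =>
    hN _ (t.e η) ((Cardinal.mk_le_of_injective (t.inj η)).trans hΩ)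
  obtain ⟨f, -⟩ : ∃ f : ∀ η, K.Hom (t.G η) T, f = f := ⟨fun η => (hG η).some, rfl⟩
  have hIio : ∀ i : θ.ord.ToType, #(Set.Iio i) < θ := fun i => by
    simpa using Cardinal.mk_Iio_lt i
  have hP : ∀ η i, #(t.P η i) < θ := t.card_P
  let S : (θ.ord.ToType → Bool) → θ.ord.ToType →
      {Z : Set (θ.ord.ToType ⊕ t.Ω × T.α) // #Z < θ} := fun η i =>
    ⟨H1.st η (t.ψ η) (t.P η i) (f η) i, lt_of_le_of_lt (H1.card_st η (t.inj η) _ _ i)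
      (Cardinal.add_lt_of_lt hθ0 (hIio i) (hP η i))⟩
  have hX : #{Z : Set (θ.ord.ToType ⊕ t.Ω × T.α) // #Z < θ} ≤ 2 ^ #M.α := by
    refine css _ _ θ hM ?_ hθχ hθ
    rw [Cardinal.mk_sum, Cardinal.mk_prod, Cardinal.lift_id, Cardinal.lift_id, Cardinal.lift_id,
      Cardinal.lift_id, hI]
    refine Cardinal.add_le_of_le hχ0 hθχ ?_
    exact Cardinal.mul_le_of_le hχ0 (hΩ.trans hθχ) hT
  -- the state determines the values below `i`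
  have hS0 : ∀ η ν i, S η i = S ν i → ∀ j < i, η j = ν j := by
    intro η ν i h j hj
    have h1 : Sum.inl j ∈ (S η i).1 ↔ Sum.inl j ∈ (S ν i).1 := by rw [h]
    have h2 : (j < i ∧ η j = true) ↔ (j < i ∧ ν j = true) :=
      H1.inl_mem.symm.trans (h1.trans H1.inl_mem)
    have h3 : η j = true ↔ ν j = true :=
      ⟨fun h => (h2.1 ⟨hj, h⟩).2, fun h => (h2.2 ⟨hj, h⟩).2⟩
    exact Bool.eq_iff_iff.2 h3
  have hS1 : ∀ η ν i, S η i = S ν i → η i = ν i := by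
    intro η ν i h
    by_contra hne'
    obtain ⟨x, y, h1, h2, h3⟩ := t.inc η ν i (hS0 η ν i h) hne' T (f η) (f ν)
    have h4 : Sum.inr (t.ψ η x, f η x) ∈ (S η i).1 := H1.inr_mem.2 ⟨x, h2, rfl⟩
    rw [h] at h4
    obtain ⟨y', -, h5⟩ := H1.inr_mem.1 h4
    have h6 : t.ψ η x = t.ψ ν y' := congrArg Prod.fst h5
    have h7 : f η x = f ν y' := congrArg Prod.snd h5
    have h8 : y' = y := t.inj ν (h6.symm.trans h1)
    rw [h8] at h7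
    exact h3 h7
  have hS2' : ∀ i, Order.IsSuccLimit i → ∀ η ν, (∀ j < i, S η j = S ν j) →
      (S η i).1 ⊆ (S ν i).1 := by
    intro i hi η ν h z hz
    rcases z with j | p
    · obtain ⟨h1, h2⟩ := H1.inl_mem.1 hz
      exact H1.inl_mem.2 ⟨h1, (hS1 η ν j (h j h1)) ▸ h2⟩
    · obtain ⟨x, h1, h2⟩ := H1.inr_mem.1 hz
      rw [t.cont η i hi, Set.mem_iUnion] at h1
      obtain ⟨⟨j, hj⟩, h3⟩ := h1
      have h4 : Sum.inr p ∈ (S η j).1 := H1.inr_mem.2 ⟨x, h3, h2⟩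
      rw [h j hj] at h4
      obtain ⟨y, h5, h6⟩ := H1.inr_mem.1 h4
      refine H1.inr_mem.2 ⟨y, ?_, h6⟩
      rw [t.cont ν i hi, Set.mem_iUnion]
      exact ⟨⟨j, hj⟩, h5⟩
  have hS2 : ∀ i, Order.IsSuccLimit i → ∀ η ν, (∀ j < i, S η j = S ν j) → S η i = S ν i := by
    intro i hi η ν h
    exact Subtype.ext (Set.Subset.antisymm (hS2' i hi η ν h)
      (hS2' i hi ν η fun j hj => (h j hj).symm))
  have h1 := cod θ.ord.ToType _ #M.α S hM hX hS1 hS2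
  rw [hI] at h1
  exact absurd h1 (not_le.2 hlt)

/-- The data at `M`. -/
theorem least {χ l : Cardinal.{u}} (hl : (2 : Cardinal.{u}) ^ χ < 2 ^ l) :
    ∃ θ : Cardinal.{u}, (2 : Cardinal.{u}) ^ χ < 2 ^ θ ∧
      (∀ μ < θ, (2 : Cardinal.{u}) ^ μ ≤ 2 ^ χ) ∧ θ ≤ l ∧ χ < θ ∧ θ ≤ 2 ^ χ := by
  have hex : ∃ θ : Cardinal.{u}, (2 : Cardinal.{u}) ^ χ < 2 ^ θ := ⟨l, hl⟩
  have hmin : ∀ μ < sInf {θ : Cardinal.{u} | (2 : Cardinal.{u}) ^ χ < 2 ^ θ},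
      (2 : Cardinal.{u}) ^ μ ≤ 2 ^ χ := by
    intro μ hμ
    exact not_lt.1 fun h => notMem_of_lt_csInf hμ (OrderBot.bddBelow _) h
  have hθ : (2 : Cardinal.{u}) ^ χ < 2 ^ sInf {θ : Cardinal.{u} | (2 : Cardinal.{u}) ^ χ < 2 ^ θ} :=
    csInf_mem hex
  refine ⟨sInf {θ : Cardinal.{u} | (2 : Cardinal.{u}) ^ χ < 2 ^ θ}, hθ, hmin, ?_, ?_, ?_⟩
  · by_contra h
    exact absurd (hmin l (not_le.1 h)) (not_le.2 hl)
  · by_contra h
    exact absurd (Cardinal.power_le_power_left two_ne_zero (not_lt.1 h)) (not_le.2 hθ)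
  · by_contra h
    exact absurd (hmin _ (not_le.1 h)) (not_le.2 (Cardinal.cantor _))

section

variable (hDGE : DgeStmt.{u}) (exr : ExrStmt.{u}) (hPLE : PleStmt.{u}) (unz : UnzStmt.{u})
    (cod : CodStmt.{u}) (css : CssStmt.{u}) (trc : TrcStmt.{u}) (szp : SzpStmt.{u})

include hDGE exr hPLE unz cod css trc szp

/-- From a target to the conclusion. -/
theorem wend {L : FirstOrder.Language.{u, u}} {κ : Cardinal.{u}}
    {K : Pool.Agent.AEC.AEC L κ} (M T : K.Mod) (l : Cardinal.{u}) (hκ : κ ≤ #M.α)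
    (hl : (2 : Cardinal.{u}) ^ #M.α < 2 ^ l) (hT : #T.α ≤ 2 ^ #M.α)
    (hext : ∀ θ : Cardinal.{u}, θ ≤ l → #M.α < θ → (∀ (N : K.Mod) (_ : K.Hom M N), #N.α < l →
      ¬ AEC.IsMax N) → ∀ (N : K.Mod) (_ : K.Hom M N), #N.α ≤ θ → Nonempty (K.Hom N T)) :
    ∃ (N : K.Mod) (_ : K.Hom M N), #N.α < l ∧ AEC.IsFamBase N ∧
      (AEC.IsMax N ∨ (2 : Cardinal.{u}) ^ #N.α = 2 ^ #M.α) := by
  by_contra hno
  have hmax : ∀ (N : K.Mod) (_ : K.Hom M N), #N.α < l → ¬ AEC.IsMax N := fun N e hN hm =>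
    hno ⟨N, e, hN, famBase_of_isMax hm, Or.inl hm⟩
  obtain ⟨θ, hθ, hmin, hθl, hMθ, _⟩ := least hl
  obtain ⟨N, e, hN, hb⟩ := wztg hDGE exr hPLE unz cod css M T θ (K.aleph0_le.trans hκ) hθ hmin hT
    (hext θ hθl hMθ hmax)
  have hMN : #M.α ≤ #N.α := Cardinal.mk_le_of_injective e.injective
  have heq : (2 : Cardinal.{u}) ^ #N.α = 2 ^ #M.α :=
    le_antisymm (hmin _ hN) (Cardinal.power_le_power_left two_ne_zero hMN)
  refine hno ⟨N, e, hN.trans_le hθl, ?_, Or.inr heq⟩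
  exact famBase_of_pBase trc N θ (hκ.trans hMN) (heq ▸ hθ) (fun μ hμ => heq ▸ hmin μ hμ) hb

/-- The case `l ≤ 2 ^ #M < 2 ^ l`. -/
theorem wla {L : FirstOrder.Language.{u, u}} {κ : Cardinal.{u}}
    {K : Pool.Agent.AEC.AEC L κ} (M : K.Mod) (l : Cardinal.{u}) (hκ : κ ≤ #M.α)
    (hle : l ≤ 2 ^ #M.α) (hl : (2 : Cardinal.{u}) ^ #M.α < 2 ^ l) (hc : K.Cat l) :
    ∃ (N : K.Mod) (_ : K.Hom M N), #N.α < l ∧ AEC.IsFamBase N ∧
      (AEC.IsMax N ∨ (2 : Cardinal.{u}) ^ #N.α = 2 ^ #M.α) := by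
  obtain ⟨T, hTl⟩ := hc.1
  refine wend hDGE exr hPLE unz cod css trc szp M T l hκ hl (hTl ▸ hle) ?_
  intro θ hθl hMθ hmax N e hN
  have hlinf : ℵ₀ ≤ l := (K.aleph0_le.trans hκ).trans (hMθ.le.trans hθl)
  have h1 : #N.α + κ ≤ l :=
    Cardinal.add_le_of_le hlinf (hN.trans hθl) (hκ.trans (hMθ.le.trans hθl))
  obtain ⟨N', h', hN'⟩ := szp L κ K N l h1 (fun N' h' hN' => hmax N' (h'.comp e) hN')
  obtain ⟨i⟩ := hc.2 N' T hN' hTl
  exact ⟨(AEC.Hom.ofEquiv i).comp h'⟩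

/-- The case of an Ehrenfeucht-Mostowski functor. -/
theorem wcb (spt : SptStmt.{u}) (kbo : KboStmt.{u}) {L : FirstOrder.Language.{u, u}}
    {κ : Cardinal.{u}} {K : Pool.Agent.AEC.AEC L κ} (E : K.EM) (M : K.Mod) (l : Cardinal.{u})
    (hκ : κ ≤ #M.α) (hl : (2 : Cardinal.{u}) ^ #M.α < 2 ^ l) (hcat : K.Cat l) :
    ∃ (N : K.Mod) (_ : K.Hom M N), #N.α < l ∧ AEC.IsFamBase N ∧
      (AEC.IsMax N ∨ (2 : Cardinal.{u}) ^ #N.α = 2 ^ #M.α) := by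
  have hM : ℵ₀ ≤ #M.α := K.aleph0_le.trans hκ
  obtain ⟨θ₀, hθ₀, hmin₀, hθ₀l, hMθ₀, hθ₀2⟩ := least hl
  have h2inf : ℵ₀ ≤ (2 : Cardinal.{u}) ^ #M.α := hM.trans (Cardinal.cantor _).le
  obtain ⟨U, _, hU, hemb⟩ := kbo θ₀ (hM.trans hMθ₀.le)
  have hT : #(E.obj U).α ≤ 2 ^ #M.α := by
    refine (E.card_le U).trans ?_
    refine (add_le_add (hU.trans hθ₀2) (hκ.trans (Cardinal.cantor _).le)).trans ?_
    rw [Cardinal.add_eq_self h2inf]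
  by_contra hno
  have hmax : ∀ (N : K.Mod) (_ : K.Hom M N), #N.α < l → ¬ AEC.IsMax N := fun N e hN hm =>
    hno ⟨N, e, hN, famBase_of_isMax hm, Or.inl hm⟩
  have hlinf : ℵ₀ ≤ l := hM.trans (hMθ₀.le.trans hθ₀l)
  have hext : ∀ (N : K.Mod) (_ : K.Hom M N), #N.α ≤ θ₀ → Nonempty (K.Hom N (E.obj U)) := by
    intro N e hN
    have hκl : κ ≤ l := hκ.trans (hMθ₀.le.trans hθ₀l)
    obtain ⟨N', f, hN'⟩ := szp L κ K N l (by
      refine (add_le_add (hN.trans hθ₀l) hκl).trans ?_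
      rw [Cardinal.add_eq_self hlinf]) (fun P g hP => hmax P (g.comp e) hP)
    have hcard : #(E.obj l.ord.ToType).α = l := by
      apply le_antisymm
      · refine (E.card_le _).trans ?_
        rw [Cardinal.mk_ord_toType]
        refine (add_le_add le_rfl hκl).trans ?_
        rw [Cardinal.add_eq_self hlinf]
      · have h := E.le_card l.ord.ToType
        rwa [Cardinal.mk_ord_toType] at h
    obtain ⟨i⟩ := hcat.2 N' (E.obj l.ord.ToType) hN' hcard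
    obtain ⟨s, hs, h, _⟩ := spt L κ K E N l.ord.ToType ((AEC.Hom.ofEquiv i).comp f)
    have hsθ : #s ≤ θ₀ := by
      refine hs.trans ((add_le_add hN (hM.trans hMθ₀.le)).trans ?_)
      rw [Cardinal.add_eq_self (hM.trans hMθ₀.le)]
    obtain ⟨a⟩ := hemb s hsθ
    exact ⟨(E.map a).comp h⟩
  obtain ⟨N, e, hN, hb⟩ := wztg hDGE exr hPLE unz cod css M (E.obj U) θ₀ hM hθ₀ hmin₀ hT hext
  have hMN : #M.α ≤ #N.α := Cardinal.mk_le_of_injective e.injective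
  have heq : (2 : Cardinal.{u}) ^ #N.α = 2 ^ #M.α :=
    le_antisymm (hmin₀ _ hN) (Cardinal.power_le_power_left two_ne_zero hMN)
  refine hno ⟨N, e, hN.trans_le hθ₀l, ?_, Or.inr heq⟩
  exact famBase_of_pBase trc N θ₀ (hκ.trans hMN) (heq ▸ hθ₀) (fun μ hμ => heq ▸ hmin₀ μ hμ) hb

/-- The final form. -/
theorem wfin (hnf : HnfStmt.{u}) (tpa : TpaStmt.{u}) (tpb : TpbStmt.{u}) (emx : EmxStmt.{u})
    (spt : SptStmt.{u}) (kbo : KboStmt.{u}) :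
    ∀ κ : Cardinal.{u}, ∃ μ : Cardinal.{u}, ∀ (L : FirstOrder.Language.{u, u})
      (K : Pool.Agent.AEC.AEC L κ) (l : Cardinal.{u}), K.Cat l → ∀ M : K.Mod, κ ≤ #M.α →
      (μ ≤ l ∨ (l ≤ 2 ^ #M.α ∧ (2 : Cardinal.{u}) ^ #M.α < 2 ^ l)) →
      ∃ (N : K.Mod) (_ : K.Hom M N), AEC.IsFamBase N ∧
        (AEC.IsMax N ∨ (2 : Cardinal.{u}) ^ #N.α = 2 ^ #M.α) ∧
        ((2 : Cardinal.{u}) ^ #M.α < 2 ^ l → #N.α < l) := by
  intro κ
  obtain ⟨μ, hμ⟩ := hnf κ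
  refine ⟨μ, fun L K l hcat M hκ h => ?_⟩
  rcases h with h | ⟨h1, h2⟩
  · have hub : K.UbCat := (hμ L K).1 ⟨l, h, hcat⟩
    have harb : K.ArbLarge := by
      intro m
      obtain ⟨l', hl', hc'⟩ := hub m
      obtain ⟨P, hP⟩ := hc'.1
      exact ⟨P, hl'.trans hP.ge⟩
    obtain ⟨p, hp⟩ := tpa L κ K harb
    obtain ⟨E⟩ := emx L κ K (tpb L κ K p hp)
    by_cases h2 : (2 : Cardinal.{u}) ^ #M.α < 2 ^ l
    · obtain ⟨N, e, hN, hb, hor⟩ := wcb hDGE exr hPLE unz cod css trc szp spt kbo E M l hκ h2 hcat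
      exact ⟨N, e, hb, hor, fun _ => hN⟩
    · obtain ⟨l', hl', hc'⟩ := hub (2 ^ #M.α)
      have h3 : (2 : Cardinal.{u}) ^ #M.α < 2 ^ l' :=
        (Cardinal.cantor _).trans_le (Cardinal.power_le_power_left two_ne_zero hl')
      obtain ⟨N, e, hN, hb, hor⟩ :=
        wcb hDGE exr hPLE unz cod css trc szp spt kbo E M l' hκ h3 hc'
      exact ⟨N, e, hb, hor, fun h4 => absurd h4 h2⟩
  · obtain ⟨N, e, hN, hb, hor⟩ := wla hDGE exr hPLE unz cod css trc szp M l hκ h1 h2 hcat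
    exact ⟨N, e, hb, hor, fun _ => hN⟩

end

end Pool.Agent.AECZ
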