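import Pool.Agent.Helper64_AEC.W3
import Pool.Agent.Helper64_AEC.Asm
import Pool.Agent.Helper56_AEC.KBO

set_option autoImplicit false

/-!
# Theorem Z for families: assembly
-/

open FirstOrder FirstOrder.Language Cardinal Set

universe u

namespace Pool.Agent.AECZ

open Pool.Agent.AEC

theorem wall :
    ∀ κ : Cardinal.{u}, ∃ μ : Cardinal.{u}, ∀ (L : FirstOrder.Language.{u, u})
      (K : Pool.Agent.AEC.AEC L κ) (l : Cardinal.{u}), K.Cat l → ∀ M : K.Mod, κ ≤ #M.α →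
      (μ ≤ l ∨ (l ≤ 2 ^ #M.α ∧ (2 : Cardinal.{u}) ^ #M.α < 2 ^ l)) →
      ∃ (N : K.Mod) (_ : K.Hom M N), AEC.IsFamBase N ∧
        (AEC.IsMax N ∨ (2 : Cardinal.{u}) ^ #N.α = 2 ^ #M.α) ∧
        ((2 : Cardinal.{u}) ^ #M.α < 2 ^ l → #N.α < l) :=
  wfin H60.dge.{u} exr'.{u} H52.ple.{u} (H45.unz exr'.{u} dlm'.{u}) cod.{u} css.{u} trc'.{u}
    szp'.{u} hnf'.{u} tpa'.{u} H82.tpb.{u} emx'.{u} H88.spt.{u} H56.kbo.{u}

end Pool.Agent.AECZ
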