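import Mathlib
import Pool.Agent.AEC.StmtsB
import Pool.Agent.AEC.StmtsZ

set_option autoImplicit false

/-!
# Theorem Z for one categoricity cardinal and an Ehrenfeucht-Mostowski functor
-/

open FirstOrder FirstOrder.Language Cardinal Set

universe u

namespace Pool.Agent.AECZ

open Pool.Agent.AEC

/-- Theorem Z for one categoricity cardinal `l` with `2 ^ #M < 2 ^ l` and an
Ehrenfeucht-Mostowski functor. -/
theorem zcb (ztg : ZtgStmt.{u}) (mxb : MxbStmt.{u}) (szp : SzpStmt.{u}) (spt : SptStmt.{u})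
    (kbo : KboStmt.{u}) (L : FirstOrder.Language.{u, u}) (κ : Cardinal.{u})
    (K : Pool.Agent.AEC.AEC L κ) (E : K.EM) (M : K.Mod) (l : Cardinal.{u}) (hκ : κ ≤ #M.α)
    (hl : (2 : Cardinal.{u}) ^ #M.α < 2 ^ l) (hcat : K.Cat l) :
    ∃ (N : K.Mod) (_ : K.Hom M N), #N.α < l ∧ AEC.IsBase N ∧
      (AEC.IsMax N ∨ (2 : Cardinal.{u}) ^ #N.α = 2 ^ #M.α) := by
  by_contra hno
  have hM : ℵ₀ ≤ #M.α := K.aleph0_le.trans hκ
  have hmax : ∀ (N : K.Mod) (_ : K.Hom M N), #N.α < l → ¬ AEC.IsMax N := fun N e hN hm =>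
    hno ⟨N, e, hN, mxb L κ K N hm, Or.inl hm⟩
  obtain ⟨θ, hθ, hmin⟩ : ∃ θ : Cardinal.{u}, (2 : Cardinal.{u}) ^ #M.α < 2 ^ θ ∧
      ∀ μ < θ, (2 : Cardinal.{u}) ^ μ ≤ 2 ^ #M.α := by
    have hex : ∃ θ : Cardinal.{u}, (2 : Cardinal.{u}) ^ #M.α < 2 ^ θ := ⟨l, hl⟩
    refine ⟨sInf {θ : Cardinal.{u} | (2 : Cardinal.{u}) ^ #M.α < 2 ^ θ}, csInf_mem hex, ?_⟩
    intro μ hμ
    exact not_lt.1 fun h => notMem_of_lt_csInf hμ (OrderBot.bddBelow _) h
  have hmono : ∀ a b : Cardinal.{u}, a ≤ b → (2 : Cardinal.{u}) ^ a ≤ 2 ^ b := fun a b h =>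
    Cardinal.power_le_power_left two_ne_zero h
  have hθl : θ ≤ l := by
    by_contra h
    exact absurd (hmin l (not_le.1 h)) (not_le.2 hl)
  have hMθ : #M.α < θ := by
    by_contra h
    exact absurd (hmono _ _ (not_lt.1 h)) (not_le.2 hθ)
  have hθ2 : θ ≤ 2 ^ #M.α := by
    by_contra h
    exact absurd (hmin _ (not_le.1 h)) (not_le.2 (Cardinal.cantor _))
  have hθinf : ℵ₀ ≤ θ := hM.trans hMθ.le
  have hlinf : ℵ₀ ≤ l := hθinf.trans hθl
  have h2inf : ℵ₀ ≤ (2 : Cardinal.{u}) ^ #M.α := hM.trans (Cardinal.cantor _).le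
  obtain ⟨U, _, hU, hemb⟩ := kbo θ hθinf
  have hT : #(E.obj U).α ≤ 2 ^ #M.α := by
    refine (E.card_le U).trans ?_
    refine (add_le_add (hU.trans hθ2) (hκ.trans (Cardinal.cantor _).le)).trans ?_
    rw [Cardinal.add_eq_self h2inf]
  have hext : ∀ (N : K.Mod) (_ : K.Hom M N), #N.α ≤ θ → Nonempty (K.Hom N (E.obj U)) := by
    intro N e hN
    have hκl : κ ≤ l := hκ.trans (hMθ.le.trans hθl)
    obtain ⟨N', f, hN'⟩ := szp L κ K N l (by
      refine (add_le_add (hN.trans hθl) hκl).trans ?_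
      rw [Cardinal.add_eq_self hlinf]) (fun P g hP => hmax P (g.comp e) hP)
    have hcard : #(E.obj l.ord.ToType).α = l := by
      apply le_antisymm
      · refine (E.card_le _).trans ?_
        rw [Cardinal.mk_ord_toType]
        refine (add_le_add le_rfl hκl).trans ?_
        rw [Cardinal.add_eq_self hlinf]
      · have h := E.le_card l.ord.ToType
        rwa [Cardinal.mk_ord_toType] at h
    obtain ⟨i⟩ := hcat.2 N' (E.obj l.ord.ToType) hN' hcard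
    obtain ⟨s, hs, h, _⟩ := spt L κ K E N l.ord.ToType ((AEC.Hom.ofEquiv i).comp f)
    have hsθ : #s ≤ θ := by
      refine hs.trans ((add_le_add hN hθinf).trans ?_)
      rw [Cardinal.add_eq_self hθinf]
    obtain ⟨a⟩ := hemb s hsθ
    exact ⟨(E.map a).comp h⟩
  obtain ⟨N, e, hN, hb⟩ := ztg L κ K M (E.obj U) θ hM hθ hmin hT hext
  refine hno ⟨N, e, hN.trans_le hθl, hb, Or.inr ?_⟩
  apply le_antisymm (hmin _ hN)
  exact hmono _ _ (Cardinal.mk_le_of_injective e.injective)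

/-- The final form: Theorem Z for one categoricity cardinal `l` which is above the Hanf-type
cardinal `μ` or satisfies `l ≤ 2 ^ #M < 2 ^ l`. -/
theorem zfin (hnf : HnfStmt.{u}) (tpa : TpaStmt.{u}) (tpb : TpbStmt.{u}) (emx : EmxStmt.{u})
    (ztg : ZtgStmt.{u}) (mxb : MxbStmt.{u}) (szp : SzpStmt.{u}) (spt : SptStmt.{u})
    (kbo : KboStmt.{u}) (zla : ZlaStmt.{u}) :
    ∀ κ : Cardinal.{u}, ∃ μ : Cardinal.{u}, ∀ (L : FirstOrder.Language.{u, u})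
      (K : Pool.Agent.AEC.AEC L κ) (l : Cardinal.{u}), K.Cat l → ∀ M : K.Mod, κ ≤ #M.α →
      (μ ≤ l ∨ (l ≤ 2 ^ #M.α ∧ (2 : Cardinal.{u}) ^ #M.α < 2 ^ l)) →
      ∃ (N : K.Mod) (_ : K.Hom M N), AEC.IsBase N ∧
        (AEC.IsMax N ∨ (2 : Cardinal.{u}) ^ #N.α = 2 ^ #M.α) ∧
        ((2 : Cardinal.{u}) ^ #M.α < 2 ^ l → #N.α < l) := by
  intro κ
  obtain ⟨μ, hμ⟩ := hnf κ
  refine ⟨μ, fun L K l hcat M hκ h => ?_⟩
  rcases h with h | ⟨h1, h2⟩
  · have hub : K.UbCat := (hμ L K).1 ⟨l, h, hcat⟩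
    have harb : K.ArbLarge := by
      intro m
      obtain ⟨l', hl', hc'⟩ := hub m
      obtain ⟨P, hP⟩ := hc'.1
      exact ⟨P, hl'.trans hP.ge⟩
    obtain ⟨p, hp⟩ := tpa L κ K harb
    obtain ⟨E⟩ := emx L κ K (tpb L κ K p hp)
    by_cases h2 : (2 : Cardinal.{u}) ^ #M.α < 2 ^ l
    · obtain ⟨N, e, hN, hb, hor⟩ := zcb ztg mxb szp spt kbo L κ K E M l hκ h2 hcat
      exact ⟨N, e, hb, hor, fun _ => hN⟩
    · obtain ⟨l', hl', hc'⟩ := hub (2 ^ #M.α)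
      have h3 : (2 : Cardinal.{u}) ^ #M.α < 2 ^ l' :=
        (Cardinal.cantor _).trans_le (Cardinal.power_le_power_left two_ne_zero hl')
      obtain ⟨N, e, hN, hb, hor⟩ := zcb ztg mxb szp spt kbo L κ K E M l' hκ h3 hc'
      exact ⟨N, e, hb, hor, fun h4 => absurd h4 h2⟩
  · obtain ⟨N, e, hN, hb, hor⟩ := zla L κ K M l hκ h1 h2 hcat
    exact ⟨N, e, hb, hor, fun _ => hN⟩

end Pool.Agent.AECZ
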